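import Pool.Agent.Helper35.MS.StGB

/-!
Project MS (MP_925021_gt), module GSM: smoothness and tangency of the field `zfd`.
-/

set_option autoImplicit false

namespace Helper99.MS

open Helper35.MS Helper35.PI Helper35.PI2 Helper32.CL
open scoped ContDiff Manifold Topology ENNReal BigOperators
open MeasureTheory Set Filter

private theorem gsm_cda {n : ℕ} {E : Type} [NormedAddCommGroup E] [NormedSpace ℝ E]
    {g : EE n → E} {x : EE n}
    (h : ContDiffAt ℝ ∞ (fun z : EE n × ℝ => g z.1) (x, (0 : ℝ))) : ContDiffAt ℝ ∞ g x := by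
  have h1 : ContDiffAt ℝ ∞ (fun y : EE n => (y, (0 : ℝ))) x := contDiffAt_id.prodMk contDiffAt_const
  exact ContDiffAt.comp (f := fun y : EE n => (y, (0 : ℝ))) x h h1

private theorem gsm_cdf {n : ℕ} {E : Type} [NormedAddCommGroup E] [NormedSpace ℝ E]
    {g : EE n → E} {x : EE n} (h : ContDiffAt ℝ ∞ g x) (v : EE n) :
    ContDiffAt ℝ ∞ (fun y => fderiv ℝ g y v) x :=
  (h.fderiv_right (m := ∞) le_rfl).clm_apply contDiffAt_const

theorem hGSM (hSM : Helper35.PI.StSM) (hFR : StFR) (hNR : StNR) : StGSM := by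
  intro n N f V x hf hV hLI
  have hf' : ContDiffAt ℝ ∞ (fun z : EE n × ℝ => f z.1) (x, (0 : ℝ)) :=
    ContDiffAt.comp (f := fun z : EE n × ℝ => z.1) (x, (0 : ℝ)) hf contDiffAt_fst
  obtain ⟨-, -, -, -, -, hG, hS, hM, -, -⟩ := hSM n N (fun z => f z.1) (x, 0) hf' hLI
  have hG' : ∀ i j, ContDiffAt ℝ ∞ (fun y => (gram f y)⁻¹ i j) x :=
    fun i j => gsm_cda (g := fun y => (gram f y)⁻¹ i j) (hG i j)
  have hS' : ∀ i j, ContDiffAt ℝ ∞ (fun y => sff f y i j) x :=
    fun i j => gsm_cda (g := fun y => sff f y i j) (hS i j)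
  have hM' : ContDiffAt ℝ ∞ (mcv f) x := gsm_cda (g := mcv f) hM
  have hD : ∀ i, ContDiffAt ℝ ∞ (fun y => dv1 f y i) x := fun i => gsm_cdf hf (ee i)
  have hDV : ∀ i, ContDiffAt ℝ ∞ (fun y => fderiv ℝ V y (ee i)) x := fun i => gsm_cdf hV (ee i)
  have h2 : ∀ k, ContDiffAt ℝ ∞ (fun y => zcv f V y k) x := by
    intro k
    unfold zcv
    refine contDiffAt_const.mul ((hM'.inner ℝ (hDV k)).sub ?_)
    refine ContDiffAt.sum fun l _ => ContDiffAt.sum fun m _ => ?_
    exact (hG' l m).mul ((hS' k l).inner ℝ (hDV m))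
  have h3 : ContDiffAt ℝ ∞ (zfd f V) x := by
    unfold zfd
    refine ContDiffAt.sum fun k _ => ContDiffAt.sum fun l _ => ?_
    exact ((hG' k l).mul (h2 k)).smul (hD l)
  have h4 : ∀ k, (inner ℝ (zfd f V x) (dv1 f x k) : ℝ) = zcv f V x k := by
    intro k
    have hu := (hFR n N f x hLI).2.1
    have hinv : (gram f x)⁻¹ * gram f x = 1 := Matrix.nonsing_inv_mul _ hu
    have h5 : ∀ j, ∑ l, (gram f x)⁻¹ j l * inner ℝ (dv1 f x l) (dv1 f x k) =
        if j = k then (1 : ℝ) else 0 := by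
      intro j
      have := congrFun (congrFun hinv j) k
      rw [Matrix.mul_apply, Matrix.one_apply] at this
      exact this
    unfold zfd
    simp only [sum_inner, real_inner_smul_left]
    have h6 : ∀ j, ∑ l, (gram f x)⁻¹ j l * zcv f V x j * inner ℝ (dv1 f x l) (dv1 f x k) =
        zcv f V x j * (if j = k then (1 : ℝ) else 0) := by
      intro j
      rw [← h5 j, Finset.mul_sum]
      exact Finset.sum_congr rfl fun l _ => by ring
    rw [Finset.sum_congr rfl fun j _ => h6 j]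
    simp
  have h5 : zfd f V x ∈ Submodule.span ℝ (range fun i => dv1 f x i) := by
    unfold zfd
    refine Submodule.sum_mem _ fun k _ => Submodule.sum_mem _ fun l _ => ?_
    exact Submodule.smul_mem _ _ (Submodule.subset_span ⟨l, rfl⟩)
  have h6 : ∀ l, (inner ℝ (mcv f x) (dv1 f x l) : ℝ) = 0 := by
    intro l
    unfold mcv
    simp only [sum_inner, real_inner_smul_left]
    refine Finset.sum_eq_zero fun i _ => Finset.sum_eq_zero fun j _ => ?_
    unfold sff
    rw [(hNR n N f x hLI).1, mul_zero]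
  refine ⟨h2, h3, h4, h5, ?_⟩
  unfold zfd
  simp only [inner_sum, real_inner_smul_right, h6, mul_zero, Finset.sum_const_zero]

end Helper99.MS
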