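import Pool.Agent.Helper35.MS.StK

/-! # Project MS (MP_925021_gt), module LNT: coefficients depending on time -/

set_option autoImplicit false

namespace Helper99.MS

open Helper35.MS Helper35.PI Helper35.PI2 Helper32.CL
open scoped ContDiff Manifold Topology ENNReal BigOperators
open MeasureTheory Set Filter

private theorem lnt_da {M : Type} [TopologicalSpace M] [ChartedSpace (EE 2) M]
    [IsManifold (𝓡 2) ∞ M] {E : Type} [NormedAddCommGroup E] [NormedSpace ℝ E]
    {f : M → E} (hf : ContMDiff (𝓡 2) 𝓘(ℝ, E) 1 f) (q : M) :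
    DifferentiableAt ℝ (fun y => f ((chartAt (EE 2) q).symm y)) (chartAt (EE 2) q q) := by
  have h1 : ContMDiffOn (𝓡 2) (𝓡 2) ∞ (chartAt (EE 2) q).symm (chartAt (EE 2) q).target :=
    contMDiffOn_chart_symm
  have h2 : ContMDiffAt (𝓡 2) (𝓡 2) ∞ (chartAt (EE 2) q).symm (chartAt (EE 2) q q) :=
    h1.contMDiffAt ((chartAt (EE 2) q).open_target.mem_nhds
      ((chartAt (EE 2) q).map_source (mem_chart_source (EE 2) q)))
  have h3 : ContMDiffAt (𝓡 2) 𝓘(ℝ, E) 1 (f ∘ (chartAt (EE 2) q).symm) (chartAt (EE 2) q q) :=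
    hf.contMDiffAt.comp _ (h2.of_le (by exact_mod_cast le_top))
  exact (contMDiffAt_iff_contDiffAt.1 h3).differentiableAt one_ne_zero

private theorem lnt_cm {M : Type} [TopologicalSpace M] [ChartedSpace (EE 2) M]
    {E : Type} [NormedAddCommGroup E] [NormedSpace ℝ E] (a : ℝ)
    {f : M → E} (hf : ContMDiff (𝓡 2) 𝓘(ℝ, E) 1 f) :
    ContMDiff (𝓡 2) 𝓘(ℝ, E) 1 (fun q => a • f q) := by
  have hL : ContDiff ℝ 1 (fun p : E => a • p) := contDiff_id.const_smul a
  exact hL.contMDiff.comp hf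

private theorem lnt_gd {N : ℕ} {M : Type} [TopologicalSpace M] [ChartedSpace (EE 2) M]
    [IsManifold (𝓡 2) ∞ M] (F : M → ℝ → EE N) (t : ℝ) (u : M → ℝ) (a : ℝ)
    (hu : ContMDiff (𝓡 2) 𝓘(ℝ, ℝ) 1 u) (q : M) :
    gdM 2 F t (fun q => a * u q) q = a • gdM 2 F t u q := by
  have hd : fderiv ℝ (fun y => a * u ((chartAt (EE 2) q).symm y)) (chartAt (EE 2) q q) =
      a • fderiv ℝ (fun y => u ((chartAt (EE 2) q).symm y)) (chartAt (EE 2) q q) :=
    ((lnt_da hu q).hasFDerivAt.const_mul a).fderiv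
  unfold gdM
  simp only [hd]
  simp only [Finset.smul_sum]
  refine Finset.sum_congr rfl fun k _ => Finset.sum_congr rfl fun m _ => ?_
  simp only [_root_.smul_apply, smul_eq_mul]
  rw [smul_smul]
  congr 1
  ring

private theorem lnt_dv {N : ℕ} {M : Type} [TopologicalSpace M] [ChartedSpace (EE 2) M]
    [IsManifold (𝓡 2) ∞ M] (F : M → ℝ → EE N) (t : ℝ) (X : M → EE N) (a : ℝ)
    (hX : ContMDiff (𝓡 2) 𝓘(ℝ, EE N) 1 X) (q : M) :
    dvg (n := 2) F (fun q => a • X q) q t = a * dvg (n := 2) F X q t := by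
  have hd : fderiv ℝ (fun y => a • X ((chartAt (EE 2) q).symm y)) (chartAt (EE 2) q q) =
      a • fderiv ℝ (fun y => X ((chartAt (EE 2) q).symm y)) (chartAt (EE 2) q q) :=
    ((lnt_da hX q).hasFDerivAt.const_smul a).fderiv
  unfold dvg
  simp only [hd]
  simp only [Finset.mul_sum]
  refine Finset.sum_congr rfl fun k _ => Finset.sum_congr rfl fun m _ => ?_
  simp only [_root_.smul_apply]
  rw [real_inner_smul_left]
  ring

theorem hLNT : StLNT := by
  intro N M _ _ _ J F hF u a a' hu ha ha'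
  have hg : ∀ t ∈ J, ∀ q, gdM 2 F t (fun q => a t * u q t) q
      = a t • gdM 2 F t (fun q => u q t) q := by
    intro t ht q
    exact lnt_gd F t (fun q => u q t) (a t) (hu.sm t ht) q
  have hd : ∀ q, ∀ t ∈ J, HasDerivAt (fun s => a s * u q s)
      (a' t * u q t + a t * deriv (fun s => u q s) t) t := by
    intro q t ht
    exact (ha t ht).mul (hu.hd q t ht)
  have hac : ContinuousOn a J := fun t ht => (ha t ht).continuousAt.continuousWithinAt
  have hac2 : ContinuousOn (fun z : M × ℝ => a z.2) (univ ×ˢ J) :=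
    hac.comp continuousOn_snd (fun z hz => hz.2)
  have hac3 : ContinuousOn (fun z : M × ℝ => a' z.2) (univ ×ˢ J) :=
    ha'.comp continuousOn_snd (fun z hz => hz.2)
  refine ⟨?_, ?_⟩
  · refine ⟨?_, ?_, ?_, ?_, ?_, ?_⟩
    · exact hac2.mul hu.c0
    · have h : ContinuousOn (fun z : M × ℝ => a' z.2 * u z.1 z.2 +
          a z.2 * deriv (fun s => u z.1 s) z.2) (univ ×ˢ J) :=
        (hac3.mul hu.c0).add (hac2.mul hu.c1)
      refine h.congr ?_
      intro z hz
      exact (hd z.1 z.2 hz.2).deriv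
    · intro q t ht
      have h := hd q t ht
      rw [h.deriv]
      exact h
    · intro t ht
      exact lnt_cm (a t) (hu.sm t ht)
    · intro t ht
      have e : gdM 2 F t (fun q => a t * u q t) =
          fun q => a t • gdM 2 F t (fun q => u q t) q := funext (hg t ht)
      rw [e]
      exact lnt_cm (a t) (hu.gr t ht)
    · intro t ht q
      rw [hg t ht q, real_inner_smul_right, hu.og t ht q, mul_zero]
  · intro q t ht
    refine ⟨hg t ht q, ?_⟩
    unfold htF lapF
    rw [(hd q t ht).deriv]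
    have e : gdM 2 F t (fun q => a t * u q t) =
        fun q => a t • gdM 2 F t (fun q => u q t) q := funext (hg t ht)
    rw [e, lnt_dv F t _ (a t) (hu.gr t ht) q]
    ring

end Helper99.MS
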