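import Pool.Agent.Helper35.MS.StE

/-!
Project MS (MP_925021_gt), module EPS: small energy regularity by point picking.
-/

set_option autoImplicit false

namespace Helper99.MS

open Helper35.MS Helper35.PI Helper35.PI2 Helper32.CL
open scoped ContDiff Manifold Topology ENNReal BigOperators
open MeasureTheory Set Filter

private theorem eps_sqrt {Y k : ℝ} (hk : 0 < k) :
    0 ≤ Real.sqrt (Y ^ 2 + k ^ 2) - k ∧ Y ≤ 2 * k + 2 * (Real.sqrt (Y ^ 2 + k ^ 2) - k) := by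
  have h1 : k ≤ Real.sqrt (Y ^ 2 + k ^ 2) := Real.le_sqrt_of_sq_le (by nlinarith)
  have h2 : Y ≤ Real.sqrt (Y ^ 2 + k ^ 2) := Real.le_sqrt_of_sq_le (by nlinarith)
  constructor
  · linarith
  · linarith

private theorem eps_exp : Real.exp (5 / 3) ≤ 5.3 := by
  by_contra h
  have h1 : (5.3 : ℝ) < Real.exp (5 / 3) := not_le.1 h
  have h2 : Real.exp (5 / 3) ^ 3 = Real.exp 1 ^ 5 := by
    rw [← Real.exp_nat_mul, ← Real.exp_nat_mul]
    norm_num
  have h3 : (5.3 : ℝ) ^ 3 < Real.exp (5 / 3) ^ 3 := by gcongr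
  have h4 : Real.exp 1 ^ 5 ≤ 2.7182818286 ^ 5 := by
    have := Real.exp_one_lt_d9.le
    gcongr
  rw [h2] at h3
  have h5 := h3.trans_le h4
  norm_num at h5

/-- the arithmetic at the end -/
private theorem eps_arith {lam σ k W wb I G Z E : ℝ} (hl : 0 < lam) (hσ : σ * (2 * lam) = 1)
    (hk : 0 < k) (hW : W ≤ wb) (hE : E ≤ 5.3) (hI0 : 0 ≤ I)
    (h1 : lam ≤ 1 / 4 * E / σ * I) (h2 : I ≤ 2 * k * G + 2 * Z) (h3 : G ≤ 3 / 4 * σ * W)
    (h4 : Z ≤ 1 / 100) : lam ≤ 3 * k * wb := by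
  have hσ0 : 0 < σ := by
    by_contra h
    have : σ * (2 * lam) ≤ 0 := mul_nonpos_of_nonpos_of_nonneg (not_lt.1 h) (by positivity)
    linarith
  have e1 : 1 / 4 * E / σ * I = 1 / 4 * E * (2 * lam) * I := by
    rw [div_mul_eq_mul_div, div_eq_iff hσ0.ne']
    linear_combination (-(1 / 4 * E * I)) * hσ
  rw [e1] at h1
  have h5 : E * I ≤ 5.3 * I := mul_le_mul_of_nonneg_right hE hI0
  have h6 : lam * 1 ≤ lam * (2.65 * I) := by nlinarith
  have h7 : 1 ≤ 2.65 * I := le_of_mul_le_mul_left h6 hl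
  have h8 : 2 * k * G ≤ 2 * k * (3 / 4 * σ * W) := mul_le_mul_of_nonneg_left h3 (by positivity)
  have h9 : 0.35 ≤ 2 * k * (3 / 4 * σ * W) := by nlinarith
  have h10 : 0.35 * lam ≤ 2 * k * (3 / 4 * σ * W) * lam := mul_le_mul_of_nonneg_right h9 hl.le
  have h11 : 2 * k * (3 / 4 * σ * W) * lam = 3 / 4 * (k * W) := by
    linear_combination (3 / 4 * k * W) * hσ
  have h12 : k * W ≤ k * wb := mul_le_mul_of_nonneg_left hW hk.le
  have h13 : 0 < k * W := by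
    by_contra h
    nlinarith
  nlinarith

theorem hEPS (hMVI : StMVI) (hGAU : StGAU) (hMUJ : StMUJ) : StEPS := by
  intro N M _ _ _ _ _ _ _ J F c χ δ hS hP k wb t₁ t₂ hk h12 hJ hE p t ht
  have hcY : ContinuousOn (fun z : M × ℝ => (z.2 - t₁) * YF F z.1 z.2) (univ ×ˢ Icc t₁ t₂) :=
    ContinuousOn.mul (by fun_prop) (hP.eY.c0.mono (prod_mono le_rfl hJ))
  obtain ⟨⟨p₀, t₀⟩, hmem, hmax⟩ := (isCompact_univ.prod isCompact_Icc).exists_isMaxOn
    ⟨((p, t) : M × ℝ), mem_univ p, ht⟩ hcY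
  have ht₀ : t₀ ∈ Icc t₁ t₂ := hmem.2
  have hmx : ∀ (q : M) (s : ℝ), s ∈ Icc t₁ t₂ →
      (s - t₁) * YF F q s ≤ (t₀ - t₁) * YF F p₀ t₀ := fun q s hs =>
    hmax (show ((q, s) : M × ℝ) ∈ univ ×ˢ Icc t₁ t₂ from ⟨mem_univ q, hs⟩)
  refine (hmx p t ht).trans ?_
  by_cases hL : (t₀ - t₁) * YF F p₀ t₀ ≤ 1
  · exact le_max_of_le_left hL
  refine le_max_of_le_right ?_
  have hL1 : 1 < (t₀ - t₁) * YF F p₀ t₀ := not_le.1 hL
  have hl4 := hP.y4 p₀ t₀ (hJ ht₀)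
  obtain ⟨lam, hlam⟩ : ∃ lam, lam = YF F p₀ t₀ := ⟨_, rfl⟩
  rw [← hlam] at hL1 hl4 ⊢
  have hl : 0 < lam := by linarith
  obtain ⟨σ, hσd⟩ : ∃ σ, σ = 1 / (2 * lam) := ⟨_, rfl⟩
  have hσ : σ * (2 * lam) = 1 := by
    rw [hσd]
    field_simp
  have hσ0 : 0 < σ := by
    rw [hσd]
    positivity
  have hτ : 2 * σ < t₀ - t₁ := by
    by_contra h
    have h1 : (t₀ - t₁) * lam ≤ 2 * σ * lam := mul_le_mul_of_nonneg_right (not_lt.1 h) hl.le
    nlinarith
  obtain ⟨t', ht'⟩ : ∃ t', t' = t₀ - σ := ⟨_, rfl⟩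
  have ht'0 : t₀ - t' = σ := by
    rw [ht']
    ring
  have hsub : Icc t' t₀ ⊆ Icc t₁ t₂ := by
    intro s hs
    have := ht₀.2
    exact ⟨by linarith [hs.1], by linarith [hs.2]⟩
  have ht'm : t' ∈ Icc t' t₀ := ⟨le_rfl, by linarith⟩
  have hY2 : ∀ q, ∀ s ∈ Icc t' t₀, YF F q s ≤ 2 * lam := by
    intro q s hs
    by_contra h
    have h1 := hmx q s (hsub hs)
    rw [← hlam] at h1
    have h2 : 2 * lam < YF F q s := not_le.1 h
    have h3 : (t₀ - t₁) / 2 < s - t₁ := by linarith [hs.1]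
    have h4 : (t₀ - t₁) / 2 * (2 * lam) < (s - t₁) * YF F q s := by
      apply mul_lt_mul'' h3 h2 (by linarith) (by linarith)
    linarith
  have hY0 : ∀ q, ∀ s ∈ J, 0 ≤ YF F q s := fun q s hs => by linarith [hP.y4 q s hs]
  have hm := hMVI N M J F c χ hS (YF F) (10 / 3 * lam) t' t₀ hP.eY (by positivity)
    (by linarith) (hsub.trans hJ) (fun q s hs => hY0 q s (hJ (hsub hs)))
    (fun q s hs => by
      have h1 := hP.hY q s (hJ (hsub hs))
      have h2 := hP.th1 q s (hJ (hsub hs))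
      have h3 := hY0 q s (hJ (hsub hs))
      have h4 := hY2 q s hs
      nlinarith [mul_le_mul_of_nonneg_left h2 h3, mul_le_mul_of_nonneg_left h4 h3]) p₀
  rw [← hlam, ht'0] at hm
  have hexp : Real.exp (10 / 3 * lam * σ) = Real.exp (5 / 3) := by
    congr 1
    linear_combination (5 / 3) * hσ
  rw [hexp] at hm
  have ht'J : t' ∈ J := hJ (hsub ht'm)
  have hg := (hGAU N M J F c χ hS.toJ t' ht'J (F p₀ t₀)).2 σ hσ0
  obtain ⟨hw, hz⟩ := hE t' (hsub ht'm)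
  -- integrability
  obtain ⟨s, -, hs⟩ := hMUJ 2 N M J F c χ hS.toJ
  have hint := (hs t' ht'J).2.2
  have cF : Continuous (fun q => F q t') := by
    have h1 : ContinuousOn (fun z : M × ℝ => F z.1 z.2) (univ ×ˢ J) :=
      hS.mcf.toIsImmJ.smooth.continuousOn
    exact h1.comp_continuous (f := fun q : M => (q, t')) (by fun_prop)
      (fun q => ⟨mem_univ q, ht'J⟩)
  have cY : Continuous (fun q => YF F q t') := by
    have h1 : ContinuousOn (fun z : M × ℝ => YF F z.1 z.2) (univ ×ˢ J) := hP.eY.c0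
    exact h1.comp_continuous (f := fun q : M => (q, t')) (by fun_prop)
      (fun q => ⟨mem_univ q, ht'J⟩)
  have cE : Continuous (fun q => Real.exp (-(‖F q t' - F p₀ t₀‖ ^ 2 / (8 * σ)))) := by fun_prop
  have cZ : Continuous (fun q => Real.sqrt (YF F q t' ^ 2 + k ^ 2) - k) := by fun_prop
  have iE := (hint _ cE).1
  have iZ := (hint _ cZ).1
  have iYE := (hint _ (cY.mul cE)).1
  have hle : ∫ q, YF F q t' * Real.exp (-(‖F q t' - F p₀ t₀‖ ^ 2 / (8 * σ))) ∂muM 2 F c χ t' ≤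
      2 * k * (∫ q, Real.exp (-(‖F q t' - F p₀ t₀‖ ^ 2 / (8 * σ))) ∂muM 2 F c χ t') +
        2 * zI k F c χ t' := by
    unfold zI
    rw [← integral_const_mul, ← integral_const_mul, ← integral_add (iE.const_mul _)
      (iZ.const_mul _)]
    refine integral_mono iYE ((iE.const_mul _).add (iZ.const_mul _)) ?_
    intro q
    obtain ⟨h1, h2⟩ := eps_sqrt (Y := YF F q t') hk
    have h3 : Real.exp (-(‖F q t' - F p₀ t₀‖ ^ 2 / (8 * σ))) ≤ 1 :=
      Real.exp_le_one_iff.2 (neg_nonpos.2 (by positivity))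
    have h4 := Real.exp_nonneg (-(‖F q t' - F p₀ t₀‖ ^ 2 / (8 * σ)))
    have h5 := mul_le_mul_of_nonneg_right h2 h4
    have h6 := mul_le_mul_of_nonneg_left h3 h1
    nlinarith
  have hI0 : 0 ≤ ∫ q, YF F q t' * Real.exp (-(‖F q t' - F p₀ t₀‖ ^ 2 / (8 * σ)))
      ∂muM 2 F c χ t' :=
    integral_nonneg fun q => mul_nonneg (hY0 q t' ht'J) (Real.exp_nonneg _)
  have hfin := eps_arith hl hσ hk hw eps_exp hI0 hm hle hg hz
  have h5 : (t₀ - t₁) * lam ≤ (t₀ - t₁) * (3 * k * wb) :=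
    mul_le_mul_of_nonneg_left hfin (by linarith)
  have h6 : (t₀ - t₁) * (3 * k * wb) ≤ (t₂ - t₁) * (3 * k * wb) :=
    mul_le_mul_of_nonneg_right (by linarith [ht₀.2]) (by linarith)
  linarith

end Helper99.MS
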